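import Pool.Agent.N928.EA.Defs

/-!
# Statements of the pieces of project EA
-/

set_option autoImplicit false

open MeasureTheory Filter

namespace Pool.Agent.N928.EA

/-- consistency of the finite volume Gibbs kernels -/
def St_TOW : Prop :=
  ∀ (V : Type) (G : SimpleGraph V) [G.LocallyFinite] (β : ℝ) (J : Coupling G) (Λ Λ' : Finset V),
    Λ ⊆ Λ' → ∀ (ω : V → Bool) (f : (V → Bool) → ℝ),
      gE G β J Λ' ω (fun σ => gE G β J Λ σ f) = gE G β J Λ' ω f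

/-- existence of limit Gibbs states -/
def St_LIM : Prop :=
  ∀ (V : Type) [Countable V] (G : SimpleGraph V) [G.LocallyFinite] (β : ℝ) (J : Coupling G)
    (ω₀ : V → Bool), ∃ π : Measure (V → Bool), IsGibbs G β J π ∧
      ∀ (f : (V → Bool) → ℝ), Continuous f → ∀ c : ℝ,
        (∀ᶠ Λ : Finset V in atTop, gE G β J Λ ω₀ f ≤ c) → ∫ ω, f ω ∂π ≤ c

/-- number of the connected sets of `n` vertices containing `v` -/
def St_CNT : Prop :=
  ∀ (V : Type) (G : SimpleGraph V) [G.LocallyFinite] (Δ : ℕ), 1 ≤ Δ → (∀ v, G.degree v ≤ Δ) →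
    ∀ (v : V) (n : ℕ),
      {A : Finset V | v ∈ A ∧ A.card = n ∧ (G.induce (A : Set V)).Connected}.Finite ∧
      {A : Finset V | v ∈ A ∧ A.card = n ∧ (G.induce (A : Set V)).Connected}.ncard ≤ Δ ^ (2 * n)

/-- energy gained by the flip of a component -/
def St_ENE : Prop :=
  ∀ (k : ℕ) (W : Type) (H : SimpleGraph W) [H.LocallyFinite] (J : Coupling (PG k H))
    (w : List (Fin k)) (A Λ : Finset (PV k W)) (σ : PV k W → Bool) (ε : Bool),
    A ⊆ Λ → (∀ x ∈ A, w <:+ x.1) →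
    (∀ x ∈ A, (σ x == gau J x.1 x.2) = !ε) →
    (∀ x ∈ A, ∀ y, y ∉ A → (PG k H).Adj x y → w <:+ y.1 → (σ y == gau J y.1 y.2) = ε) →
    ham (PG k H) J Λ σ + 2 * (((k : ℝ) - 1) * A.card + XA H (YY J) A) ≤
      ham (PG k H) J Λ (flp A σ)

open Classical in
/-- Peierls estimate at a good vertex -/
def St_PEI : Prop :=
  ∀ (k : ℕ) (W : Type) (H : SimpleGraph W) [H.LocallyFinite] (D : ℕ), (∀ h, H.degree h ≤ D) →
    ∀ (J : Coupling (PG k H)) (w : List (Fin k)) (h₀ : W), Good H w h₀ (YY J) →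
    ∀ β : ℝ, 5 * ((k : ℝ) + 1 + D)^2 ≤ Real.exp (2 * β) →
    ∀ (Λ : Finset (PV k W)), (w, h₀) ∈ Λ → ∀ (ε : Bool) (ω : PV k W → Bool),
      (∀ x, x ∉ Λ → w <:+ x.1 → (ω x == gau J x.1 x.2) = ε) →
      gE (PG k H) β J Λ ω (fun σ => if (σ (w, h₀) == gau J w h₀) = ε then 0 else 1) ≤ 1/4

/-- law of the couplings after the gauge transformation -/
def St_GAU : Prop :=
  ∀ (k : ℕ) (W : Type) [Countable W] (H : SimpleGraph W),
    Measurable (YY : Coupling (PG k H) → (List (Fin k) × H.edgeSet → Bool)) ∧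
    (couplingLaw (PG k H)).map YY = unif (List (Fin k) × H.edgeSet)

/-- a vertex is good with probability at least `1/2` -/
def St_BAD : Prop :=
  ∀ (k : ℕ) (W : Type) [Countable W] (H : SimpleGraph W) [H.LocallyFinite] (D : ℕ), 1 ≤ D →
    2 ≤ k → (∀ h, H.degree h ≤ D) →
    3 * ((k : ℝ) + 1 + D)^2 ≤ Real.exp (((k : ℝ) - 2)^2 / (2 * D)) →
    ∀ (w : List (Fin k)) (h₀ : W), MeasurableSet {Y | Good H w h₀ Y} ∧
      unif (List (Fin k) × H.edgeSet) {Y | ¬ Good H w h₀ Y} ≤ 1/2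

/-- almost surely there are infinitely many good vertices in disjoint subtrees -/
def St_IND : Prop :=
  ∀ (k : ℕ) (W : Type) [Countable W] (H : SimpleGraph W) [H.LocallyFinite] (h₀ : W),
    (∀ w : List (Fin (k+2)), MeasurableSet {Y | Good H w h₀ Y} ∧
      unif (List (Fin (k+2)) × H.edgeSet) {Y | ¬ Good H w h₀ Y} ≤ 1/2) →
    ∀ᵐ Y ∂(unif (List (Fin (k+2)) × H.edgeSet)), ∀ n : ℕ, ∃ j, n ≤ j ∧ Good H (wj k j) h₀ Y

/-- constants -/
def St_NUM : Prop :=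
  ∀ D k : ℕ, 1 ≤ D → 20 * √((D : ℝ) * Real.log (D + 1)) ≤ k →
    2 ≤ k ∧ 3 * ((k : ℝ) + 1 + D)^2 ≤ Real.exp (((k : ℝ) - 2)^2 / (2 * D))

/-- the result: on the product of the `k`-ary tree and `H` there are almost surely infinitely many
linearly independent Gibbs states at low temperature -/
def St_MAIN : Prop :=
  ∃ C : ℝ, ∀ D k : ℕ, 1 ≤ D → C * √((D : ℝ) * Real.log (D + 1)) ≤ k →
    ∃ β₀ : ℝ, ∀ (W : Type) [Nonempty W] [Countable W] (H : SimpleGraph W) [H.LocallyFinite],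
      (∀ h, H.degree h ≤ D) →
      ∀ᵐ J ∂(couplingLaw (PG k H)), ∀ β : ℝ, β₀ ≤ β → ∀ m : ℕ,
        ∃ π : Fin m → Measure (PV k W → Bool), (∀ i, IsGibbs (PG k H) β J (π i)) ∧
          ∀ c : Fin m → ℝ, (∀ A : Set (PV k W → Bool), MeasurableSet A →
            ∑ i, c i * (π i A).toReal = 0) → c = 0

end Pool.Agent.N928.EA
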