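import Mathlib

/-!
# The Edwards–Anderson model on locally finite graphs, and on the product of a tree and a graph

Definitions (the model on a general graph follows `Pool.Agent.H47R2.EA.Defs`, for `ℤ^d`).
-/

set_option autoImplicit false

open MeasureTheory

namespace Pool.Agent.N928.EA

/-- `true ↦ +1`, `false ↦ -1`. -/
def sg (b : Bool) : ℝ := if b then 1 else -1

/-- A realisation of the signs of the couplings: one sign for every edge of `G`. -/
abbrev Coupling {V : Type} (G : SimpleGraph V) : Type := G.edgeSet → Bool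

open Classical in
/-- The coupling `J_{⟨x,y⟩} ∈ {-1,1}` if `x,y` are neighbours, and `0` otherwise. -/
noncomputable def Jc {V : Type} (G : SimpleGraph V) (J : Coupling G) (x y : V) : ℝ :=
  if h : G.Adj x y then sg (J ⟨s(x, y), h⟩) else 0

theorem Jc_comm {V : Type} (G : SimpleGraph V) (J : Coupling G) (x y : V) :
    Jc G J x y = Jc G J y x := by
  unfold Jc
  by_cases h : G.Adj x y
  · have h' : G.Adj y x := h.symm
    simp only [h, h', dif_pos]
    have : (⟨s(x, y), h⟩ : G.edgeSet) = ⟨s(y, x), h'⟩ := by
      apply Subtype.ext; exact Sym2.eq_swap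
    rw [this]
  · have h' : ¬ G.Adj y x := fun h' => h h'.symm
    simp [h, h']

open Classical in
/-- The finite set of the edges `⟨x,y⟩` with `{x,y} ∩ Λ ≠ ∅`. -/
noncomputable def edgesOf {V : Type} (G : SimpleGraph V) [G.LocallyFinite] (Λ : Finset V) :
    Finset (Sym2 V) :=
  Λ.biUnion fun x => (G.neighborFinset x).image fun y => s(x, y)

/-- The term `J_e σ_x σ_y` of the bond `e = ⟨x,y⟩`. -/
noncomputable def bond {V : Type} (G : SimpleGraph V) (J : Coupling G) (σ : V → Bool) :
    Sym2 V → ℝ :=
  Sym2.lift ⟨fun x y => Jc G J x y * sg (σ x) * sg (σ y), fun x y => by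
    show Jc G J x y * sg (σ x) * sg (σ y) = Jc G J y x * sg (σ y) * sg (σ x)
    rw [Jc_comm G J x y]; ring⟩

/-- `∑_{e = ⟨x,y⟩ : {x,y} ∩ Λ ≠ ∅} J_e σ_x σ_y`. -/
noncomputable def ham {V : Type} (G : SimpleGraph V) [G.LocallyFinite] (J : Coupling G)
    (Λ : Finset V) (σ : V → Bool) : ℝ :=
  ∑ e ∈ edgesOf G Λ, bond G J σ e

open Classical in
/-- The configuration equal to `η` on `Λ` and to the boundary condition `ω` off `Λ`. -/
noncomputable def glue {V : Type} (Λ : Finset V) (η : Λ → Bool) (ω : V → Bool) : V → Bool :=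
  fun x => if h : x ∈ Λ then η ⟨x, h⟩ else ω x

open Classical in
/-- Partition function in `Λ` with boundary condition `ω`. -/
noncomputable def Zp {V : Type} (G : SimpleGraph V) [G.LocallyFinite] (β : ℝ) (J : Coupling G)
    (Λ : Finset V) (ω : V → Bool) : ℝ :=
  ∑ η : Λ → Bool, Real.exp (β * ham G J Λ (glue Λ η ω))

open Classical in
/-- The expectation of `f` under the Edwards–Anderson measure in the finite set `Λ` with boundary
condition `ω`, at inverse temperature `β`. -/
noncomputable def gE {V : Type} (G : SimpleGraph V) [G.LocallyFinite] (β : ℝ) (J : Coupling G)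
    (Λ : Finset V) (ω : V → Bool) (f : (V → Bool) → ℝ) : ℝ :=
  (∑ η : Λ → Bool, Real.exp (β * ham G J Λ (glue Λ η ω)) * f (glue Λ η ω)) / Zp G β J Λ ω

/-- Gibbs states at `(β, J)`: probability measures satisfying the DLR equations for all finite
sets `Λ`. -/
def IsGibbs {V : Type} (G : SimpleGraph V) [G.LocallyFinite] (β : ℝ) (J : Coupling G)
    (π : Measure (V → Bool)) : Prop :=
  IsProbabilityMeasure π ∧
    ∀ (Λ : Finset V) (A : Set (V → Bool)), MeasurableSet A →
      (π A).toReal = ∫ ω, gE G β J Λ ω (A.indicator fun _ => (1 : ℝ)) ∂π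

/-- the uniform law on an arbitrary family of signs -/
noncomputable def unif (ι : Type) : Measure (ι → Bool) :=
  Measure.infinitePi fun _ => (PMF.uniformOfFintype Bool).toMeasure

instance (ι : Type) : IsProbabilityMeasure (unif ι) := by
  unfold unif; infer_instance

/-- The law of the couplings: independent fair signs on the edges of `G`. -/
noncomputable def couplingLaw {V : Type} (G : SimpleGraph V) : Measure (Coupling G) :=
  unif G.edgeSet

/-- The infinite rooted `k`-ary tree: the vertices are the words, the root is the empty word, the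
children of `t` are the words `i :: t`. -/
def kt (k : ℕ) : SimpleGraph (List (Fin k)) where
  Adj a b := (∃ i, b = i :: a) ∨ (∃ i, a = i :: b)
  symm := ⟨by
    intro a b h
    exact h.symm⟩
  loopless := ⟨by
    intro a h
    rcases h with ⟨i, h⟩ | ⟨i, h⟩ <;>
    · have := congrArg List.length h
      simp at this⟩

theorem kt_finite (k : ℕ) (a : List (Fin k)) : ((kt k).neighborSet a).Finite := by
  apply ((Set.finite_range (fun i : Fin k => i :: a)).union (Set.finite_singleton a.tail)).subset
  intro b hb
  rcases hb with ⟨i, h⟩ | ⟨i, h⟩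
  · left; exact ⟨i, h.symm⟩
  · right; rw [h]; simp

noncomputable instance (k : ℕ) : (kt k).LocallyFinite := fun a => (kt_finite k a).fintype

/-- vertices of the product -/
abbrev PV (k : ℕ) (W : Type) : Type := List (Fin k) × W

/-- The (box) product of the `k`-ary tree and of `H`. -/
abbrev PG (k : ℕ) {W : Type} (H : SimpleGraph W) : SimpleGraph (PV k W) := (kt k) □ H

open Classical in
noncomputable instance (k : ℕ) {W : Type} (H : SimpleGraph W) [H.LocallyFinite] :
    (PG k H).LocallyFinite := fun _ => inferInstance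

/-! ## the gauge -/

theorem adj_tree {k : ℕ} {W : Type} (H : SimpleGraph W) (i : Fin k) (t : List (Fin k)) (h : W) :
    (PG k H).Adj (t, h) (i :: t, h) := by
  rw [SimpleGraph.boxProd_adj]
  exact Or.inl ⟨Or.inl ⟨i, rfl⟩, rfl⟩

theorem adj_layer {k : ℕ} {W : Type} {H : SimpleGraph W} (t : List (Fin k)) {h h' : W}
    (hh : H.Adj h h') : (PG k H).Adj (t, h) (t, h') := by
  rw [SimpleGraph.boxProd_adj]
  exact Or.inr ⟨hh, rfl⟩

/-- `gau J t h`: the product of the couplings of the edges of the layer `h` on the path from the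
root to `t` (product of signs = `==`). -/
def gau {k : ℕ} {W : Type} {H : SimpleGraph W} (J : Coupling (PG k H)) :
    List (Fin k) → W → Bool
  | [], _ => true
  | i :: t, h => (J ⟨s((t, h), (i :: t, h)), adj_tree H i t h⟩ == gau J t h)

theorem map_mem {k : ℕ} {W : Type} {H : SimpleGraph W} (t : List (Fin k)) {e : Sym2 W}
    (he : e ∈ H.edgeSet) : Sym2.map (fun h => (t, h)) e ∈ (PG k H).edgeSet := by
  induction e using Sym2.ind with
  | _ h h' => exact adj_layer t he

/-- the couplings of the edges of the copies of `H` after the gauge transformation -/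
def YY {k : ℕ} {W : Type} {H : SimpleGraph W} (J : Coupling (PG k H)) :
    List (Fin k) × H.edgeSet → Bool := fun p =>
  (J ⟨Sym2.map (fun h => (p.1, h)) p.2.1, map_mem p.1 p.2.2⟩ ==
    Sym2.lift ⟨fun h h' => (gau J p.1 h == gau J p.1 h'), fun h h' => by
      show (gau J p.1 h == gau J p.1 h') = (gau J p.1 h' == gau J p.1 h)
      cases gau J p.1 h <;> cases gau J p.1 h' <;> rfl⟩ p.2.1)

open Classical in
/-- the sign of the edge `⟨h,h'⟩` of the copy of `H` at `t` -/
noncomputable def yv {k : ℕ} {W : Type} (H : SimpleGraph W) (Y : List (Fin k) × H.edgeSet → Bool)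
    (t : List (Fin k)) (h h' : W) : ℝ :=
  if a : H.Adj h h' then sg (Y (t, ⟨s(h, h'), a⟩)) else 0

open Classical in
/-- the sum of the signs `Y` over the edges of the copies of `H` on the boundary of `A` -/
noncomputable def XA {k : ℕ} {W : Type} (H : SimpleGraph W) [H.LocallyFinite]
    (Y : List (Fin k) × H.edgeSet → Bool) (A : Finset (PV k W)) : ℝ :=
  ∑ x ∈ A, ∑ y ∈ (H.neighborFinset x.2).filter (fun y => (x.1, y) ∉ A), yv H Y x.1 x.2 y

/-- the vertex `(w,h)` is good -/
def Good {k : ℕ} {W : Type} (H : SimpleGraph W) [H.LocallyFinite] (w : List (Fin k)) (h : W)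
    (Y : List (Fin k) × H.edgeSet → Bool) : Prop :=
  ∀ A : Finset (PV k W), (w, h) ∈ A → (∀ x ∈ A, w <:+ x.1) →
    ((PG k H).induce (A : Set (PV k W))).Connected → -((k : ℝ) - 2) * A.card ≤ XA H Y A

open Classical in
/-- flip of the spins of `A` -/
noncomputable def flp {V : Type} (A : Finset V) (σ : V → Bool) : V → Bool :=
  fun x => if x ∈ A then !(σ x) else σ x

/-- the word `1 0 0 … 0` (`j` zeros), in the order of the list the child `1` of `0^j` -/
def wj (k : ℕ) (j : ℕ) : List (Fin (k+2)) := 1 :: List.replicate j 0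

end Pool.Agent.N928.EA
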