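import Pool.Agent.N928.EA.Stm

/-!
# Assembly of project EA
-/

set_option autoImplicit false

open MeasureTheory Filter Topology

namespace Pool.Agent.N928.EA

theorem wj_suffix_aux (k i j : ℕ) (h : wj k i <:+ wj k j) : i = j := by
  unfold wj at h
  rw [List.suffix_cons_iff] at h
  rcases h with h | h
  · have := congrArg List.length h
    simpa using this
  · exfalso
    have h1 : (1 : Fin (k+2)) ∈ List.replicate j (0 : Fin (k+2)) := h.subset (by simp)
    have := List.eq_of_mem_replicate h1
    exact absurd this (by simp)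

theorem wj_inj (k i j : ℕ) (t : List (Fin (k+2))) (hi : wj k i <:+ t) (hj : wj k j <:+ t) :
    i = j := by
  rcases le_total i j with h | h
  · exact wj_suffix_aux k i j (List.suffix_of_suffix_length_le hi hj (by simp [wj]; omega))
  · exact (wj_suffix_aux k j i (List.suffix_of_suffix_length_le hj hi (by simp [wj]; omega))).symm

theorem beq_beq (a b : Bool) : ((a == b) == b) = a := by cases a <;> cases b <;> rfl

open Classical in
theorem main_of (hLIM : St_LIM) (hPEI : St_PEI) (hGAU : St_GAU) (hBAD : St_BAD)
    (hIND : St_IND) (hNUM : St_NUM) : St_MAIN := by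
  refine ⟨20, fun D k hD hk => ?_⟩
  obtain ⟨hk2, hexp⟩ := hNUM D k hD hk
  refine ⟨Real.log (5 * ((k:ℝ)+1+D)^2) / 2, ?_⟩
  intro W _ _ H _ hH
  obtain ⟨k, rfl⟩ : ∃ k', k = k' + 2 := ⟨k-2, by omega⟩
  let h₀ : W := Classical.arbitrary W
  have hg := hIND k W H h₀ (fun w => hBAD (k+2) W H D hD hk2 hH hexp w h₀)
  obtain ⟨hm, hlaw⟩ := hGAU (k+2) W H
  rw [← hlaw] at hg
  have hg' := ae_of_ae_map hm.aemeasurable hg
  filter_upwards [hg'] with J hJ β hβ m
  have hβ5 : 5 * (((k+2 : ℕ):ℝ)+1+D)^2 ≤ Real.exp (2 * β) := by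
    have hpos : (0:ℝ) < 5 * (((k+2 : ℕ):ℝ)+1+D)^2 := by positivity
    rw [← Real.exp_log hpos]
    exact Real.exp_le_exp.mpr (by linarith)
  have hinf : {j | Good H (wj k j) h₀ (YY J)}.Infinite := by
    rw [Set.infinite_iff_frequently_cofinite, Nat.cofinite_eq_atTop, frequently_atTop]
    intro n
    obtain ⟨j, h1, h2⟩ := hJ n
    exact ⟨j, h1, h2⟩
  let a : (Fin m → Bool) → ℕ := fun p => (hinf.natEmbedding _ (Fintype.equivFin _ p).1).1
  have ha : ∀ p, Good H (wj k (a p)) h₀ (YY J) := fun p =>
    (hinf.natEmbedding _ (Fintype.equivFin _ p).1).2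
  have hainj : Function.Injective a := by
    intro p p' h
    have h1 := (hinf.natEmbedding _).injective (Subtype.ext h)
    exact (Fintype.equivFin _).injective (Fin.ext h1)
  -- boundary conditions
  let ω : Fin m → PV (k+2) W → Bool := fun i x =>
    if h : ∃ p, wj k (a p) <:+ x.1 then (h.choose i == gau J x.1 x.2) else true
  have hω : ∀ i p x, wj k (a p) <:+ x.1 → (ω i x == gau J x.1 x.2) = p i := by
    intro i p x hx
    have hex : ∃ p, wj k (a p) <:+ x.1 := ⟨p, hx⟩
    have heq : hex.choose = p := hainj (wj_inj k _ _ _ hex.choose_spec hx)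
    simp only [ω, dif_pos hex, heq, beq_beq]
  choose π hπ hπ2 using fun i => hLIM (PV (k+2) W) (PG (k+2) H) β J (ω i)
  have hest : ∀ i (p : Fin m → Bool),
      ∫ σ, (if (σ (wj k (a p), h₀) == gau J (wj k (a p)) h₀) = p i then (0:ℝ) else 1) ∂(π i)
        ≤ 1/4 := by
    intro i p
    apply hπ2 i
    · have h1 : Continuous (fun b : Bool =>
          (if (b == gau J (wj k (a p)) h₀) = p i then (0:ℝ) else 1)) :=
        continuous_of_discreteTopology
      exact h1.comp (continuous_apply ((wj k (a p), h₀) : PV (k+2) W))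
    · filter_upwards [eventually_ge_atTop ({(wj k (a p), h₀)} : Finset (PV (k+2) W))] with Λ hΛ
      have hv : (wj k (a p), h₀) ∈ Λ := hΛ (by simp)
      have := hPEI (k+2) W H D hH J (wj k (a p)) h₀ (ha p) β hβ5 Λ hv (p i) (ω i)
        (fun x _ hx => hω i p x hx)
      convert this using 2
  refine ⟨π, hπ, ?_⟩
  intro c hc
  let p : Fin m → Bool := fun i => decide (0 ≤ c i)
  let v : PV (k+2) W := (wj k (a p), h₀)
  let g : Bool := gau J (wj k (a p)) h₀
  let A : Set (PV (k+2) W → Bool) := {σ | (σ v == g) = true}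
  have hA : MeasurableSet A := by
    have h1 : Measurable (fun σ : PV (k+2) W → Bool => (σ v == g)) :=
      (measurable_of_countable (fun b : Bool => (b == g))).comp (measurable_pi_apply v)
    exact h1 (measurableSet_singleton true)
  have hx : ∀ i, (p i = true → 3/4 ≤ (π i A).toReal) ∧ (p i = false → (π i A).toReal ≤ 1/4) := by
    intro i
    have hpr : IsProbabilityMeasure (π i) := (hπ i).1
    have h1 := hest i p
    constructor
    · intro hp
      have h2 : (fun σ : PV (k+2) W → Bool =>
          (if (σ (wj k (a p), h₀) == gau J (wj k (a p)) h₀) = p i then (0:ℝ) else 1))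
          = Aᶜ.indicator (fun _ => (1:ℝ)) := by
        funext σ
        by_cases h : σ ∈ A
        · have h' : (σ (wj k (a p), h₀) == gau J (wj k (a p)) h₀) = true := h
          simp [h, h', hp]
        · have h' : ¬ (σ (wj k (a p), h₀) == gau J (wj k (a p)) h₀) = true := h
          rw [hp, if_neg h', Set.indicator_of_mem (by simpa using h)]
      rw [h2, integral_indicator hA.compl] at h1
      simp only [integral_const, smul_eq_mul, mul_one] at h1
      rw [Measure.real, Measure.restrict_apply_univ] at h1
      have h3 := prob_compl_eq_one_sub (μ := π i) hA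
      rw [h3, ENNReal.toReal_sub_of_le prob_le_one ENNReal.one_ne_top, ENNReal.toReal_one] at h1
      linarith
    · intro hp
      have h2 : (fun σ : PV (k+2) W → Bool =>
          (if (σ (wj k (a p), h₀) == gau J (wj k (a p)) h₀) = p i then (0:ℝ) else 1))
          = A.indicator (fun _ => (1:ℝ)) := by
        funext σ
        by_cases h : σ ∈ A
        · have h' : (σ (wj k (a p), h₀) == gau J (wj k (a p)) h₀) = true := h
          rw [hp, if_neg (by rw [h']; simp), Set.indicator_of_mem h]
        · have h' : ¬ (σ (wj k (a p), h₀) == gau J (wj k (a p)) h₀) = true := h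
          rw [hp, if_pos (by simpa using h'), Set.indicator_of_notMem h]
      rw [h2, integral_indicator hA] at h1
      simp only [integral_const, smul_eq_mul, mul_one] at h1
      rwa [Measure.real, Measure.restrict_apply_univ] at h1
  have e1 := hc A hA
  have e2 := hc Set.univ MeasurableSet.univ
  have e3 : ∑ i, c i * ((π i A).toReal - 1/2) = 0 := by
    have h2 : ∑ i, c i = 0 := by
      rw [← e2]
      refine Finset.sum_congr rfl fun i _ => ?_
      have hpr : IsProbabilityMeasure (π i) := (hπ i).1
      rw [measure_univ, ENNReal.toReal_one, mul_one]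
    calc ∑ i, c i * ((π i A).toReal - 1/2)
        = ∑ i, c i * (π i A).toReal - (1/2) * ∑ i, c i := by
          rw [Finset.mul_sum, ← Finset.sum_sub_distrib]
          exact Finset.sum_congr rfl fun i _ => by ring
      _ = 0 := by rw [e1, h2]; ring
  have e4 : ∀ i, |c i| / 4 ≤ c i * ((π i A).toReal - 1/2) := by
    intro i
    by_cases h : 0 ≤ c i
    · have := (hx i).1 (by simp [p, h])
      rw [abs_of_nonneg h]
      nlinarith
    · have := (hx i).2 (by simp [p, h])
      rw [abs_of_neg (not_le.mp h)]
      nlinarith [not_le.mp h]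
  have e5 : ∑ i, |c i| / 4 ≤ 0 := (Finset.sum_le_sum fun i _ => e4 i).trans e3.le
  funext i
  have e6 : |c i| / 4 ≤ ∑ i, |c i| / 4 :=
    Finset.single_le_sum (f := fun i => |c i| / 4) (fun i _ => by positivity) (Finset.mem_univ i)
  have e7 : |c i| ≤ 0 := by linarith
  simpa using e7

end Pool.Agent.N928.EA
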